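import Pool.Agent.TR.Final2

/-!
# Total reality for convex curves, `d = m - 2`

For every `m ≥ 3`, every convex curve in an `m`-dimensional real space and all distinct reals
`z_1, …, z_N`, `N = 2 (m - 2)`, at which the osculating `2`-plane is defined, the Schubert problem
of the osculating `2`-planes has exactly `f = catalan (m - 2)` solutions in `Gr(m - 2, m)`, and all
of them are real.
-/

namespace Pool.Agent.Results.MP_61ec56_ag.CodimensionTwo

open TR

/-- The number `f` of standard Young tableaux of the `d × (m - d)` rectangle, as written in the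
problem: `N! ∏_{i=1}^{d} (i-1)! / (m-d+i-1)!`, `N = d (m - d)`. -/
noncomputable def sytFormula (m d : ℕ) : ℚ :=
  ((d * (m - d)).factorial : ℚ) *
    ∏ i ∈ Finset.Icc 1 d, ((i - 1).factorial : ℚ) / ((m - d + i - 1).factorial : ℚ)

theorem sytFormula_eq {m : ℕ} (hm : 2 ≤ m) : sytFormula m (m - 2) = catalan (m - 2) := by
  rw [catalan_formula]
  unfold sytFormula
  rw [show m - (m - 2) = 2 by omega, mul_comm (m - 2) 2]

/-- The Schubert problem in terms of a decreasing enumeration of the nodes. -/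
theorem key {m : ℕ} (hm : 3 ≤ m) {γ : ℝ → Fin m → ℝ} (hγ : ConvexCurve m γ) {N : ℕ}
    (hN : N = 2 * (m - 2)) (z : Fin N → ℝ) (hz : Function.Injective z)
    (hosc : ∀ i, Module.finrank ℂ (osc m 2 γ (z i)) = 2) :
    (Schubert m (m - 2) γ z).ncard = catalan (m - 2) ∧
      ∀ V ∈ Schubert m (m - 2) γ z, IsRealSub V := by
  obtain ⟨ζ, hdec, hζ1, hζ2⟩ := exists_sorted z hz
  have hNn : Nn m (m - 1) = N := by unfold Nn; omega
  have hdat : ∀ i < N, DifferentiableAt ℝ γ (ζ i) ∧ LinearIndependent ℝ ![γ (ζ i), deriv γ (ζ i)] := by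
    intro i hi
    obtain ⟨j, hj⟩ := hζ1 i hi
    rw [← hj]
    exact osc_two_data γ (z j) (hosc j)
  obtain ⟨p, e, C, hp, he, hC⟩ := curve_data (by omega) hγ ζ hdec (fun i hi => (hdat i hi).1)
    (fun i hi => (hdat i hi).2)
  have hcd : CD m p e (fun i => γ (ζ i)) (fun i => deriv γ (ζ i)) := by
    refine ⟨hp, he, ⟨C, fun i hi => hC i (hNn ▸ hi)⟩, fun i hi => (hdat i (hNn ▸ hi)).2⟩
  have hT := main _ m (m - 1) (by omega) (by omega) rfl p hp
  obtain ⟨h1, h2⟩ := solV_card hm hcd hT
  have heq : SolV m (fun i => γ (ζ i)) (fun i => deriv γ (ζ i)) = Schubert m (m - 2) γ z := by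
    ext V
    unfold SolV Schubert
    rw [show m - (m - 2) = 2 by omega]
    simp only [Set.mem_ofPred_eq]
    refine and_congr_right fun _ => ?_
    constructor
    · intro h j
      obtain ⟨i, hi, hji⟩ := hζ2 j
      have := h i (by rw [hNn]; exact hi)
      rw [hji, osc_two]
      exact this
    · intro h i hi
      obtain ⟨j, hj⟩ := hζ1 i (by rw [← hNn]; exact hi)
      have := h j
      rw [hj, osc_two] at this
      exact this
  rw [heq] at h1 h2
  refine ⟨?_, h2⟩
  rw [h1, cnt_catalan (by omega)]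

theorem result (m : ℕ) (hm : 3 ≤ m) (γ : ℝ → Fin m → ℝ) (hγ : ConvexCurve m γ)
    (z : Fin ((m - 2) * (m - (m - 2))) → ℝ) (hz : Function.Injective z)
    (hosc : ∀ i, Module.finrank ℂ (osc m (m - (m - 2)) γ (z i)) = m - (m - 2)) :
    (Schubert m (m - 2) γ z).Finite ∧
    ((Schubert m (m - 2) γ z).ncard : ℚ) = sytFormula m (m - 2) ∧
    (Schubert m (m - 2) γ z).ncard = catalan (m - 2) ∧
    ∀ V ∈ Schubert m (m - 2) γ z, IsRealSub V := by
  have e : m - (m - 2) = 2 := by omega
  have hN : (m - 2) * (m - (m - 2)) = 2 * (m - 2) := by rw [e]; ring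
  obtain ⟨h1, h2⟩ := key hm hγ hN z hz (fun i => by have := hosc i; rw [e] at this; exact this)
  refine ⟨?_, ?_, h1, h2⟩
  · refine Set.finite_of_ncard_ne_zero ?_
    rw [h1]
    have h3 := succ_mul_catalan_eq_centralBinom (m - 2)
    have h4 := Nat.centralBinom_pos (m - 2)
    intro h0
    rw [h0] at h3
    omega
  · rw [h1, sytFormula_eq (by omega)]

end Pool.Agent.Results.MP_61ec56_ag.CodimensionTwo
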