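import Pool.Agent.Helper65.TD.FIN
import Pool.Agent.Helper65.TD.M3

/-!
# Total reality for convex curves, `d = 2`

For every `m ≥ 3`, every convex curve in an `m`-dimensional real space and all distinct reals
`z_1, …, z_N`, `N = 2 (m - 2)`, at which the osculating `(m-2)`-plane is defined, the Schubert problem
of the osculating `(m-2)`-planes has exactly `f = catalan (m - 2)` solutions in `Gr(2, m)`, and all
of them are real.
-/

namespace Pool.Agent.Results.MP_61ec56_ag.DimensionTwo

open TR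

/-- The number `f` of standard Young tableaux of the `d × (m - d)` rectangle, as written in the
problem: `N! ∏_{i=1}^{d} (i-1)! / (m-d+i-1)!`, `N = d (m - d)`. -/
noncomputable def sytFormula (m d : ℕ) : ℚ :=
  ((d * (m - d)).factorial : ℚ) *
    ∏ i ∈ Finset.Icc 1 d, ((i - 1).factorial : ℚ) / ((m - d + i - 1).factorial : ℚ)

theorem sytFormula_eq {m : ℕ} (hm : 2 ≤ m) : sytFormula m 2 = catalan (m - 2) := by
  obtain ⟨n, rfl⟩ : ∃ n, m = n + 2 := ⟨m - 2, by omega⟩
  unfold sytFormula
  have e1 : n + 2 - 2 = n := by omega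
  rw [e1]
  have e2 : Finset.Icc 1 2 = {1, 2} := by decide
  rw [e2, Finset.prod_pair (by norm_num)]
  have e3 : n + 1 - 1 = n := by omega
  have e4 : n + 2 - 1 = n + 1 := by omega
  rw [e3, e4]
  have h := succ_mul_catalan_eq_centralBinom n
  have h2 := Nat.choose_mul_factorial_mul_factorial (show n ≤ 2 * n by omega)
  rw [show 2 * n - n = n by omega] at h2
  unfold Nat.centralBinom at h
  have h3 : ((n + 1 : ℕ) : ℚ) * (catalan n : ℚ) = ((2 * n).choose n : ℚ) := by exact_mod_cast h
  have h4 : ((2 * n).choose n : ℚ) * (n.factorial : ℚ) * (n.factorial : ℚ) =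
      ((2 * n).factorial : ℚ) := by exact_mod_cast h2
  have h5 : ((n + 1).factorial : ℚ) = ((n + 1 : ℕ) : ℚ) * (n.factorial : ℚ) := by
    rw [Nat.factorial_succ]; push_cast; ring
  have h6 : (n.factorial : ℚ) ≠ 0 := by exact_mod_cast n.factorial_ne_zero
  have h7 : ((n + 1 : ℕ) : ℚ) ≠ 0 := by exact_mod_cast n.succ_ne_zero
  simp only [Nat.sub_self, Nat.factorial_zero, Nat.cast_one, Nat.reduceSub, Nat.factorial_one]
  rw [← h4, ← h3, h5]
  field_simp

/-- `d = 2`, `N = d (m - d)`. -/
theorem result (m : ℕ) (hm : 3 ≤ m) (γ : ℝ → Fin m → ℝ) (hγ : ConvexCurve m γ)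
    (z : Fin (2 * (m - 2)) → ℝ) (hz : Function.Injective z)
    (hosc : ∀ i, Module.finrank ℂ (osc m (m - 2) γ (z i)) = m - 2) :
    (Schubert m 2 γ z).Finite ∧
    ((Schubert m 2 γ z).ncard : ℚ) = sytFormula m 2 ∧
    (Schubert m 2 γ z).ncard = catalan (m - 2) ∧
    ∀ V ∈ Schubert m 2 γ z, IsRealSub V := by
  have key : (Schubert m 2 γ z).ncard = catalan (m - 2) ∧
      ∀ V ∈ Schubert m 2 γ z, IsRealSub V := by
    rcases hm.lt_or_eq with h | h
    · exact TD.total (n := m - 2) (by omega) (by omega) hγ rfl z hz hosc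
    · subst h
      have h3 := TD.case_three hγ z hz
      refine ⟨?_, h3.2⟩
      rw [h3.1]
      simp
  obtain ⟨h1, h2⟩ := key
  refine ⟨?_, ?_, h1, h2⟩
  · refine Set.finite_of_ncard_ne_zero ?_
    rw [h1]
    have h3 := succ_mul_catalan_eq_centralBinom (m - 2)
    have h4 := Nat.centralBinom_pos (m - 2)
    intro h0
    rw [h0] at h3
    omega
  · rw [h1, sytFormula_eq (by omega)]

end Pool.Agent.Results.MP_61ec56_ag.DimensionTwo
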